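import Pool.Agent.Run7.h81.Semi.Model

set_option autoImplicit false

open MeasureTheory Set Filter Topology
open scoped ENNReal

namespace Run7.h81.Semi

/-- the semigroup on `L²(0,∞)` -/
noncomputable def T (t : ℝ) : K →L[ℂ] K :=
  ((W (max t 0) (le_max_right _ _)).comp K.subtypeL).codRestrict K
    (fun x => W_mem (le_max_right _ _) x.2)

lemma W_congr {t r : ℝ} (h : t = r) (ht : 0 ≤ t) (hr : 0 ≤ r) (f : L) : W t ht f = W r hr f := by
  subst h; rfl

lemma T_coe {t : ℝ} (ht : 0 ≤ t) (x : K) : ((T t x : K) : L) = W t ht (x : L) := by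
  exact W_congr (max_eq_left ht) (le_max_right _ _) ht (x : L)

lemma T_zero : T 0 = ContinuousLinearMap.id ℂ K := by
  ext1 x
  apply Subtype.ext
  rw [T_coe (le_refl 0), W_zero]
  rfl

lemma T_add (s t : ℝ) (hs : 0 ≤ s) (ht : 0 ≤ t) : T (s + t) = (T s).comp (T t) := by
  ext1 x
  apply Subtype.ext
  rw [T_coe (add_nonneg hs ht), ContinuousLinearMap.comp_apply, T_coe hs, T_coe ht, W_add hs ht x.2]

lemma T_apply_norm_le {t : ℝ} (ht : 0 ≤ t) (x : K) : ‖T t x‖ ≤ ‖x‖ := by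
  rw [Submodule.coe_norm, T_coe ht, Submodule.coe_norm]
  exact W_norm_le ht _

lemma T_norm (t : ℝ) (ht : 0 ≤ t) : ‖T t‖ ≤ 1 :=
  ContinuousLinearMap.opNorm_le_bound _ zero_le_one fun x => by
    rw [one_mul]; exact T_apply_norm_le ht x

lemma T_near (x : K) {ε : ℝ} (hε : 0 < ε) : ∃ δ : ℝ, 0 < δ ∧ ∀ t : ℝ, 0 ≤ t → t < δ → ‖T t x - x‖ < ε := by
  obtain ⟨δ, hδ, h⟩ := W_tendsto (x : L) ε hε
  refine ⟨δ, hδ, fun t ht htd => ?_⟩
  rw [Submodule.coe_norm, Submodule.coe_sub, T_coe ht]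
  exact h t ht htd

lemma T_cont (x : K) : ContinuousOn (fun t : ℝ => T t x) (Ici 0) := by
  have key : ∀ s t : ℝ, 0 ≤ s → s ≤ t → ‖T t x - T s x‖ ≤ ‖T (t - s) x - x‖ := by
    intro s t hs hst
    have h1 : T t x - T s x = T s (T (t - s) x - x) := by
      rw [map_sub, ← ContinuousLinearMap.comp_apply, ← T_add s (t - s) hs (by linarith)]
      congr 3
      ring
    rw [h1]
    exact T_apply_norm_le hs _
  intro s hs
  rw [Metric.continuousWithinAt_iff]
  intro ε hε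
  obtain ⟨δ, hδ, h⟩ := T_near x hε
  refine ⟨δ, hδ, fun {t} ht hd => ?_⟩
  rw [dist_eq_norm]
  rw [Real.dist_eq, abs_lt] at hd
  rcases le_total s t with hst | hst
  · exact (key s t hs hst).trans_lt (h (t - s) (by linarith) (by linarith [hd.2]))
  · rw [norm_sub_rev]
    exact (key t s ht hst).trans_lt (h (s - t) (by linarith) (by linarith [hd.1]))

/-- restriction to `(-∞, τ]` -/
noncomputable def P (τ : ℝ) : L →L[ℂ] L :=
  mulOp ((Iic τ).indicator 1) (measurable_one.indicator measurableSet_Iic) 1 zero_le_one (by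
    intro s
    by_cases h : s ∈ Iic τ
    · rw [indicator_of_mem h]; simp
    · rw [indicator_of_notMem h]; simp)

lemma P_coe (τ : ℝ) (f : L) : ∀ᵐ s : ℝ, P τ f s = if s ≤ τ then f s else 0 := by
  have h1 := mulOp_coe (k := (Iic τ).indicator 1) (C := 1)
    (measurable_one.indicator measurableSet_Iic) zero_le_one (by
      intro s
      by_cases h : s ∈ Iic τ
      · rw [indicator_of_mem h]; simp
      · rw [indicator_of_notMem h]; simp) f
  filter_upwards [h1] with s h2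
  have h3 : P τ f s = ((Iic τ).indicator 1 s : ℝ) * f s := h2
  rw [h3]
  split_ifs with h
  · rw [indicator_of_mem (mem_Iic.2 h)]; simp
  · rw [indicator_of_notMem (by simpa using h)]; simp

lemma P_norm_le (τ : ℝ) (f : L) : ‖P τ f‖ ≤ ‖f‖ := by
  apply Lp.norm_le_norm_of_ae_le
  filter_upwards [P_coe τ f] with s h
  rw [h]
  split_ifs
  · exact le_refl _
  · simp

lemma P_W {τ : ℝ} (hτ : 0 ≤ τ) {f : L} (hf : f ∈ K) : P τ (W τ hτ f) = 0 := by
  apply Lp.ext
  rw [mem_K] at hf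
  filter_upwards [P_coe τ (W τ hτ f), W_coe hτ f, ae_shift hf τ,
    Lp.coeFn_zero ℂ 2 (volume : Measure ℝ)] with s h1 h2 h3 h4
  rw [h1, h4]
  split_ifs with h
  · rw [h2, h3 (by linarith), mul_zero]; rfl
  · rfl

lemma W_lower {τ : ℝ} (hτ : 0 ≤ τ) {f : L} (hf : ∀ᵐ s : ℝ, s ≤ τ → f s = 0) :
    ‖f‖ / 2 ≤ ‖W τ hτ f‖ := by
  have h1 : ‖((1 / 2 : ℝ) : ℂ) • tr τ f‖ ≤ ‖W τ hτ f‖ := by
    apply Lp.norm_le_norm_of_ae_le
    filter_upwards [Lp.coeFn_smul ((1 / 2 : ℝ) : ℂ) (tr τ f), W_coe hτ f, tr_coe τ f,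
      ae_shift hf τ] with s h2 h3 h4 h5
    rw [h2, Pi.smul_apply, h4, h3, smul_eq_mul]
    by_cases hs : s - τ ≤ τ
    · rw [h5 hs]; simp
    · push Not at hs
      rw [norm_mul, norm_mul, Complex.norm_real, Complex.norm_real, kf_of_lt hτ (by linarith),
        Real.norm_eq_abs, Real.norm_eq_abs, abs_of_nonneg (by norm_num : (0:ℝ) ≤ 1 / 2),
        abs_of_nonneg (div_nonneg (by linarith) (by linarith))]
      apply mul_le_mul_of_nonneg_right _ (norm_nonneg _)
      rw [div_le_div_iff₀ (by norm_num) (by linarith)]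
      linarith
  rw [norm_smul, Complex.norm_real, tr_norm, Real.norm_eq_abs, abs_of_nonneg (by norm_num)] at h1
  linarith

/-- the constant -/
noncomputable def Cst : ℝ := Real.exp 1 + (Real.exp 1 + 2) / (1 / 2 - Real.exp (-1))

lemma exp_aux : 0 < 1 / 2 - Real.exp (-1) := by
  have h1 : (2:ℝ) < Real.exp 1 := by
    have := Real.exp_one_gt_d9
    linarith
  have h2 : Real.exp (-1) * Real.exp 1 = 1 := by
    rw [← Real.exp_add]; simp
  have h3 : 0 < Real.exp (-1) := Real.exp_pos _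
  nlinarith

lemma Cst_pos : 0 < Cst := by
  unfold Cst
  have := exp_aux
  positivity

/-- the growth estimate from the differential equation -/
lemma growth {x y : K} (h : Tendsto (fun h : ℝ => ((h : ℂ)⁻¹) • (T h x - x)) (𝓝[>] 0) (𝓝 y))
    {μ : ℂ} (hμ : μ.re < 0) {τ : ℝ} (hτ : 0 < τ) :
    ‖Complex.exp (-(μ * τ)) • T τ x - x‖ ≤ Real.exp (-μ.re * τ) * ‖y - μ • x‖ * τ := by
  have hder : ∀ t ∈ Ico (0:ℝ) τ, HasDerivWithinAt (fun t : ℝ => T t x) (T t y) (Ici t) t := by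
    intro t ht
    rw [hasDerivWithinAt_iff_tendsto_slope]
    have h1 : Tendsto (fun h : ℝ => T t (((h : ℂ)⁻¹) • (T h x - x))) (𝓝[>] 0) (𝓝 (T t y)) :=
      ((T t).continuous.tendsto y).comp h
    have h2 : Tendsto (fun u : ℝ => u - t) (𝓝[Ici t \ {t}] t) (𝓝[>] 0) := by
      rw [tendsto_nhdsWithin_iff]
      constructor
      · have : Tendsto (fun u : ℝ => u - t) (𝓝 t) (𝓝 (t - t)) := by
          exact (continuous_id.sub continuous_const).tendsto t
        rw [sub_self] at this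
        exact this.mono_left nhdsWithin_le_nhds
      · filter_upwards [self_mem_nhdsWithin] with u hu
        have h3 : t ≤ u := hu.1
        have h4 : u ≠ t := hu.2
        exact sub_pos.2 (lt_of_le_of_ne h3 h4.symm)
    refine (h1.comp h2).congr' ?_
    filter_upwards [self_mem_nhdsWithin] with u hu
    have h3 : t ≤ u := hu.1
    have h4 : T t (T (u - t) x) = T u x := by
      rw [← ContinuousLinearMap.comp_apply, ← T_add t (u - t) ht.1 (by linarith)]
      congr 2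
      ring
    rw [Function.comp_apply, map_smul, map_sub, h4, slope_def_module, ← Complex.ofReal_inv,
      Complex.coe_smul]
    rfl
  have hexp : ∀ t : ℝ, HasDerivAt (fun t : ℝ => Complex.exp (-(μ * t))) (-μ * Complex.exp (-(μ * t))) t := by
    intro t
    have h1 : HasDerivAt (fun t : ℝ => -(μ * (t : ℂ))) (-μ) t := by
      have h2 : HasDerivAt (fun t : ℝ => (t : ℂ)) 1 t := Complex.ofRealCLM.hasDerivAt
      have h3 := h2.const_mul (-μ)
      rw [mul_one] at h3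
      exact h3.congr_of_eventuallyEq (Eventually.of_forall fun s => by simp)
    have h3 := h1.cexp
    rw [mul_comm] at h3
    exact h3
  have hu : ∀ t ∈ Ico (0:ℝ) τ, HasDerivWithinAt (fun t : ℝ => Complex.exp (-(μ * t)) • T t x)
      (Complex.exp (-(μ * t)) • T t (y - μ • x)) (Ici t) t := by
    intro t ht
    have h1 := ((hexp t).hasDerivWithinAt (s := Ici t)).smul (hder t ht)
    refine h1.congr_deriv ?_
    rw [map_sub, map_smul, smul_sub, neg_mul, neg_smul, smul_smul, ← sub_eq_add_neg,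
      mul_comm (Complex.exp (-(μ * (t : ℂ)))) μ]
  have hcont : ContinuousOn (fun t : ℝ => Complex.exp (-(μ * t)) • T t x) (Icc 0 τ) := by
    have hE : ContinuousOn (fun t : ℝ => Complex.exp (-(μ * t))) (Icc 0 τ) := by fun_prop
    exact hE.smul ((T_cont x).mono Icc_subset_Ici_self)
  have hbound : ∀ t ∈ Ico (0:ℝ) τ, ‖Complex.exp (-(μ * t)) • T t (y - μ • x)‖ ≤
      Real.exp (-μ.re * τ) * ‖y - μ • x‖ := by
    intro t ht
    rw [norm_smul, Complex.norm_exp]
    have h1 : (-(μ * (t : ℂ))).re = -μ.re * t := by simp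
    rw [h1]
    have h2 : -μ.re * t ≤ -μ.re * τ := by
      have : 0 < -μ.re := by linarith
      nlinarith [ht.2]
    exact mul_le_mul (Real.exp_le_exp.2 h2) (T_apply_norm_le ht.1 _) (norm_nonneg _)
      (Real.exp_pos _).le
  have h1 := norm_image_sub_le_of_norm_deriv_right_le_segment hcont hu hbound τ ⟨hτ.le, le_refl _⟩
  have h2 : T 0 x = x := by rw [T_zero]; rfl
  simpa [h2] using h1

/-- the resolvent lower bound -/
theorem resolvent {x y : K} (h : Tendsto (fun h : ℝ => ((h : ℂ)⁻¹) • (T h x - x)) (𝓝[>] 0) (𝓝 y))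
    {μ : ℂ} (hμ : μ.re < 0) : Cst⁻¹ * |μ.re| * ‖x‖ ≤ ‖μ • x - y‖ := by
  set r : ℝ := -μ.re with hr
  have hr0 : 0 < r := by linarith
  set τ : ℝ := r⁻¹ with hτd
  have hτ : 0 < τ := inv_pos.2 hr0
  have hg := growth h hμ hτ
  rw [← hr, mul_inv_cancel₀ hr0.ne'] at hg
  set G : ℝ := ‖y - μ • x‖ with hG
  set E : ℂ := Complex.exp (-(μ * τ)) with hE
  have hEn : ‖E‖ = Real.exp 1 := by
    rw [hE, Complex.norm_exp]
    congr 1
    have : (-(μ * (τ : ℂ))).re = -μ.re * τ := by simp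
    rw [this, ← hr, mul_inv_cancel₀ hr0.ne']
  have hG0 : 0 ≤ G := norm_nonneg _
  -- work in the ambient space
  set X : L := (x : L) with hX
  have hXK : X ∈ K := x.2
  have hg' : ‖E • W τ hτ.le X - X‖ ≤ Real.exp 1 * G * τ := by
    have h1 : ((E • T τ x - x : K) : L) = E • W τ hτ.le X - X := by
      rw [Submodule.coe_sub, Submodule.coe_smul, T_coe hτ.le]
    rw [← h1]
    exact hg
  have hPX : ‖P τ X‖ ≤ Real.exp 1 * G * τ := by
    have h1 : P τ (E • W τ hτ.le X - X) = -P τ X := by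
      rw [map_sub, map_smul, P_W hτ.le hXK, smul_zero, zero_sub]
    have h2 := (P_norm_le τ (E • W τ hτ.le X - X)).trans hg'
    rwa [h1, norm_neg] at h2
  set X1 : L := X - P τ X with hX1
  have hX1v : ∀ᵐ s : ℝ, s ≤ τ → X1 s = 0 := by
    filter_upwards [P_coe τ X, Lp.coeFn_sub X (P τ X)] with s h1 h2 hs
    rw [hX1, h2, Pi.sub_apply, h1, if_pos hs, sub_self]
  have hlow := W_lower hτ.le hX1v
  have hWX : ‖W τ hτ.le X‖ ≤ Real.exp (-1) * (‖X‖ + Real.exp 1 * G * τ) := by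
    have h1 : ‖E • W τ hτ.le X‖ ≤ ‖X‖ + Real.exp 1 * G * τ := by
      calc ‖E • W τ hτ.le X‖ = ‖X + (E • W τ hτ.le X - X)‖ := by congr 1; abel
        _ ≤ ‖X‖ + ‖E • W τ hτ.le X - X‖ := norm_add_le _ _
        _ ≤ _ := by gcongr
    rw [norm_smul, hEn] at h1
    have h2 : Real.exp (-1) * Real.exp 1 = 1 := by rw [← Real.exp_add]; simp
    calc ‖W τ hτ.le X‖ = Real.exp (-1) * (Real.exp 1 * ‖W τ hτ.le X‖) := by
          rw [← mul_assoc, h2, one_mul]
      _ ≤ _ := by gcongr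
  have hWX1 : ‖W τ hτ.le X1‖ ≤ ‖W τ hτ.le X‖ + ‖P τ X‖ := by
    rw [hX1, map_sub]
    refine (norm_sub_le _ _).trans ?_
    gcongr
    exact W_norm_le _ _
  have hXle : ‖X‖ ≤ ‖X1‖ + ‖P τ X‖ := by
    calc ‖X‖ = ‖X1 + P τ X‖ := by rw [hX1]; congr 1; abel
      _ ≤ _ := norm_add_le _ _
  have he := exp_aux
  have hee : Real.exp (-1) * Real.exp 1 = 1 := by rw [← Real.exp_add]; simp
  have hem : 0 < Real.exp (-1) := Real.exp_pos _
  have hep : 0 < Real.exp 1 := Real.exp_pos _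
  have hX1n : (1 / 2 - Real.exp (-1)) * ‖X1‖ ≤ (Real.exp 1 + 2) * (G * τ) := by
    have h1 : ‖X1‖ / 2 ≤ Real.exp (-1) * (‖X1‖ + ‖P τ X‖ + Real.exp 1 * G * τ) + ‖P τ X‖ := by
      refine (hlow.trans hWX1).trans ?_
      gcongr
      refine hWX.trans ?_
      gcongr
    have h2 : Real.exp (-1) * (Real.exp 1 * G * τ) = G * τ := by
      rw [← mul_assoc, ← mul_assoc, hee, one_mul]
    have h3 : Real.exp (-1) * ‖P τ X‖ ≤ G * τ := by
      calc Real.exp (-1) * ‖P τ X‖ ≤ Real.exp (-1) * (Real.exp 1 * G * τ) := by gcongr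
        _ = G * τ := h2
    nlinarith
  have hfin : ‖X‖ ≤ Cst * (G * τ) := by
    unfold Cst
    have h1 : ‖X1‖ ≤ (Real.exp 1 + 2) / (1 / 2 - Real.exp (-1)) * (G * τ) := by
      rw [div_mul_eq_mul_div, le_div_iff₀ he]
      linarith
    calc ‖X‖ ≤ ‖X1‖ + ‖P τ X‖ := hXle
      _ ≤ (Real.exp 1 + 2) / (1 / 2 - Real.exp (-1)) * (G * τ) + Real.exp 1 * G * τ := by gcongr
      _ = _ := by ring
  have hC := Cst_pos
  have habs : |μ.re| = r := by rw [hr, abs_of_neg hμ]
  have hnx : ‖x‖ = ‖X‖ := rfl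
  rw [habs, hnx, norm_sub_rev, ← hG]
  have h1 : Cst⁻¹ * r * ‖X‖ ≤ Cst⁻¹ * r * (Cst * (G * τ)) := by gcongr
  refine h1.trans (le_of_eq ?_)
  rw [hτd]
  field_simp

end Run7.h81.Semi
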