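import Mathlib

set_option autoImplicit false

/-!
Weighted translations on `L²(0,∞)`: a contraction semigroup tending strongly to zero whose
generator satisfies `‖(μ - A) x‖ ≥ m |Re μ| ‖x‖` for `Re μ < 0`.
-/

open MeasureTheory Set Filter Topology
open scoped ENNReal

namespace Run7.h81.Semi

/-- the ambient space `L²(ℝ)` -/
noncomputable abbrev L := Lp ℂ 2 (volume : Measure ℝ)

/-- multiplication by a bounded measurable function -/
lemma mul_memLp {k : ℝ → ℝ} (hk : Measurable k) {C : ℝ} (hb : ∀ s, |k s| ≤ C) (f : L) :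
    MemLp (fun s => (k s : ℂ) * f s) 2 volume := by
  have h1 : MemLp (fun s => (C : ℂ) * f s) 2 volume := (Lp.memLp f).const_mul _
  refine h1.mono ?_ (ae_of_all _ fun s => ?_)
  · exact (Complex.measurable_ofReal.comp hk).aestronglyMeasurable.mul (Lp.aestronglyMeasurable f)
  · rw [norm_mul, norm_mul, Complex.norm_real, Complex.norm_real]
    gcongr
    exact (hb s).trans (le_abs_self C)

noncomputable def mulOp (k : ℝ → ℝ) (hk : Measurable k) (C : ℝ) (hC : 0 ≤ C) (hb : ∀ s, |k s| ≤ C) :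
    L →L[ℂ] L :=
  LinearMap.mkContinuous
    { toFun := fun f => (mul_memLp hk hb f).toLp _
      map_add' := by
        intro f g
        apply Lp.ext
        filter_upwards [(mul_memLp hk hb (f + g)).coeFn_toLp, (mul_memLp hk hb f).coeFn_toLp,
          (mul_memLp hk hb g).coeFn_toLp, Lp.coeFn_add f g,
          Lp.coeFn_add ((mul_memLp hk hb f).toLp _) ((mul_memLp hk hb g).toLp _)] with s h1 h2 h3 h4 h5
        rw [h1, h5, Pi.add_apply, h2, h3, h4, Pi.add_apply]
        ring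
      map_smul' := by
        intro c f
        apply Lp.ext
        filter_upwards [(mul_memLp hk hb (c • f)).coeFn_toLp, (mul_memLp hk hb f).coeFn_toLp,
          Lp.coeFn_smul c f, Lp.coeFn_smul c ((mul_memLp hk hb f).toLp _)] with s h1 h2 h3 h4
        rw [h1, RingHom.id_apply, h4, Pi.smul_apply, h2, h3, Pi.smul_apply, smul_eq_mul, smul_eq_mul]
        ring } C (by
    intro f
    have h1 : ‖(mul_memLp hk hb f).toLp _‖ ≤ ‖(C : ℂ) • f‖ := by
      apply Lp.norm_le_norm_of_ae_le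
      filter_upwards [(mul_memLp hk hb f).coeFn_toLp, Lp.coeFn_smul (C : ℂ) f] with s h1 h2
      rw [h1, h2, Pi.smul_apply, smul_eq_mul, norm_mul, norm_mul, Complex.norm_real, Complex.norm_real]
      gcongr
      exact (hb s).trans (le_abs_self C)
    refine h1.trans ?_
    rw [norm_smul, Complex.norm_real, Real.norm_eq_abs, abs_of_nonneg hC])

lemma mulOp_coe {k : ℝ → ℝ} (hk : Measurable k) {C : ℝ} (hC : 0 ≤ C) (hb : ∀ s, |k s| ≤ C) (f : L) :
    mulOp k hk C hC hb f =ᵐ[volume] fun s => (k s : ℂ) * f s :=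
  (mul_memLp hk hb f).coeFn_toLp

lemma mulOp_norm_le {k : ℝ → ℝ} (hk : Measurable k) {C : ℝ} (hC : 0 ≤ C) (hb : ∀ s, |k s| ≤ C)
    (f : L) : ‖mulOp k hk C hC hb f‖ ≤ C * ‖f‖ := by
  refine ((mulOp k hk C hC hb).le_opNorm f).trans ?_
  gcongr
  exact LinearMap.mkContinuous_norm_le _ hC _

lemma sub_mp (t : ℝ) : MeasurePreserving (fun s : ℝ => s - t) volume volume :=
  measurePreserving_sub_right volume t

/-- translation -/
noncomputable def tr (t : ℝ) : L →L[ℂ] L :=
  (Lp.compMeasurePreservingₗᵢ ℂ (fun s : ℝ => s - t) (sub_mp t)).toContinuousLinearMap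

lemma tr_coe (t : ℝ) (f : L) : tr t f =ᵐ[volume] fun s => f (s - t) :=
  Lp.coeFn_compMeasurePreserving f (sub_mp t)

lemma tr_norm (t : ℝ) (f : L) : ‖tr t f‖ = ‖f‖ :=
  Lp.norm_compMeasurePreserving f (sub_mp t)

lemma tr_tendsto (f : L) (t₀ : ℝ) : Tendsto (fun t : ℝ => tr t f) (𝓝 t₀) (𝓝 (tr t₀ f)) := by
  have hc : Continuous (fun t : ℝ => (⟨fun s : ℝ => s - t, by fun_prop⟩ : C(ℝ, ℝ))) := by
    apply ContinuousMap.continuous_of_continuous_uncurry
    show Continuous (fun p : ℝ × ℝ => p.2 - p.1)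
    fun_prop
  exact Filter.Tendsto.compMeasurePreservingLp (f := fun _ => f) (g := fun t : ℝ =>
    (⟨fun s : ℝ => s - t, by fun_prop⟩ : C(ℝ, ℝ))) tendsto_const_nhds (hc.tendsto t₀)
    (fun t => sub_mp t) (sub_mp t₀) (by norm_num)

/-- the weight -/
noncomputable def kf (t s : ℝ) : ℝ := 1 - t / (1 + max s t)

lemma kf_meas (t : ℝ) : Measurable (kf t) := by
  unfold kf; fun_prop

lemma kf_bound {t : ℝ} (ht : 0 ≤ t) (s : ℝ) : |kf t s| ≤ 1 := by
  unfold kf
  have h1 : t ≤ max s t := le_max_right _ _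
  have h2 : 0 ≤ t / (1 + max s t) := by positivity
  have h3 : t / (1 + max s t) ≤ 1 := by
    rw [div_le_one (by linarith)]; linarith
  rw [abs_le]; constructor <;> linarith

lemma kf_sub {t : ℝ} (ht : 0 ≤ t) (s : ℝ) : |kf t s - 1| ≤ t := by
  unfold kf
  have h1 : t ≤ max s t := le_max_right _ _
  have h2 : 0 ≤ t / (1 + max s t) := by positivity
  have h3 : t / (1 + max s t) ≤ t := by
    rw [div_le_iff₀ (by linarith)]; nlinarith
  rw [abs_le]; constructor <;> linarith

lemma kf_of_lt {t s : ℝ} (ht : 0 ≤ t) (hs : t < s) : kf t s = (1 + s - t) / (1 + s) := by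
  unfold kf
  rw [max_eq_left hs.le]
  have : 1 + s ≠ 0 := by linarith
  field_simp

/-- weighted translation, `t ≥ 0` -/
noncomputable def W (t : ℝ) (ht : 0 ≤ t) : L →L[ℂ] L :=
  (mulOp (kf t) (kf_meas t) 1 zero_le_one (kf_bound ht)).comp (tr t)

lemma W_coe {t : ℝ} (ht : 0 ≤ t) (f : L) : W t ht f =ᵐ[volume] fun s => (kf t s : ℂ) * f (s - t) := by
  filter_upwards [mulOp_coe (kf_meas t) zero_le_one (kf_bound ht) (tr t f), tr_coe t f] with s h1 h2
  show mulOp (kf t) (kf_meas t) 1 zero_le_one (kf_bound ht) (tr t f) s = _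
  rw [h1, h2]

lemma W_norm_le {t : ℝ} (ht : 0 ≤ t) (f : L) : ‖W t ht f‖ ≤ ‖f‖ := by
  refine (mulOp_norm_le (kf_meas t) zero_le_one (kf_bound ht) (tr t f)).trans ?_
  rw [one_mul, tr_norm]

lemma W_tendsto (f : L) : ∀ ε : ℝ, 0 < ε → ∃ δ : ℝ, 0 < δ ∧ ∀ t (ht : 0 ≤ t), t < δ → ‖W t ht f - f‖ < ε := by
  intro ε hε
  have h1 := tr_tendsto f 0
  have h0 : tr 0 f = f := by
    apply Lp.ext
    filter_upwards [tr_coe 0 f] with s hs
    rw [hs, sub_zero]
  rw [h0, Metric.tendsto_nhds_nhds] at h1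
  obtain ⟨δ, hδ, hδ2⟩ := h1 (ε / 2) (by positivity)
  refine ⟨min δ (ε / (2 * (‖f‖ + 1))), by positivity, fun t ht htd => ?_⟩
  have h2 : ‖tr t f - f‖ < ε / 2 := by
    have := hδ2 (x := t) (by rw [Real.dist_eq, sub_zero, abs_of_nonneg ht]; exact htd.trans_le (min_le_left _ _))
    rwa [dist_eq_norm] at this
  have h3 : ‖W t ht f - tr t f‖ ≤ t * ‖f‖ := by
    have h4 : ‖W t ht f - tr t f‖ ≤ ‖(t : ℂ) • tr t f‖ := by
      apply Lp.norm_le_norm_of_ae_le
      filter_upwards [Lp.coeFn_sub (W t ht f) (tr t f), W_coe ht f, tr_coe t f,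
        Lp.coeFn_smul (t : ℂ) (tr t f)] with s h4 h5 h6 h7
      rw [h4, Pi.sub_apply, h5, h7, Pi.smul_apply, h6, smul_eq_mul]
      have h8 : (kf t s : ℂ) * f (s - t) - f (s - t) = ((kf t s - 1 : ℝ) : ℂ) * f (s - t) := by
        push_cast; ring
      rw [h8, norm_mul, norm_mul, Complex.norm_real, Complex.norm_real, Real.norm_eq_abs,
        Real.norm_eq_abs, abs_of_nonneg ht]
      gcongr
      exact kf_sub ht s
    refine h4.trans ?_
    rw [norm_smul, Complex.norm_real, Real.norm_eq_abs, abs_of_nonneg ht, tr_norm]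
  have h5 : t * ‖f‖ ≤ ε / 2 := by
    have h6 : t < ε / (2 * (‖f‖ + 1)) := htd.trans_le (min_le_right _ _)
    rw [lt_div_iff₀ (by positivity)] at h6
    nlinarith [norm_nonneg f]
  calc ‖W t ht f - f‖ = ‖(W t ht f - tr t f) + (tr t f - f)‖ := by congr 1; abel
    _ ≤ ‖W t ht f - tr t f‖ + ‖tr t f - f‖ := norm_add_le _ _
    _ < ε := by linarith

/-- functions vanishing on `(-∞, 0]` -/
noncomputable def neg : L →L[ℂ] L :=
  mulOp ((Iic (0:ℝ)).indicator 1) (measurable_one.indicator measurableSet_Iic) 1 zero_le_one (by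
    intro s
    by_cases h : s ∈ Iic (0:ℝ)
    · rw [indicator_of_mem h]; simp
    · rw [indicator_of_notMem h]; simp)

/-- the Hilbert space `L²(0,∞)` -/
noncomputable def K : Submodule ℂ L := LinearMap.ker neg.toLinearMap

lemma mem_K {f : L} : f ∈ K ↔ ∀ᵐ s : ℝ, s ≤ 0 → f s = 0 := by
  unfold K
  rw [LinearMap.mem_ker]
  constructor
  · intro h
    have h' : neg f = 0 := h
    have h1 := mulOp_coe (measurable_one.indicator measurableSet_Iic) zero_le_one (by
      intro s
      by_cases h : s ∈ Iic (0:ℝ)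
      · rw [indicator_of_mem h]; simp
      · rw [indicator_of_notMem h]; simp) f (k := (Iic (0:ℝ)).indicator 1) (C := 1)
    have h2 := Lp.coeFn_zero ℂ 2 (volume : Measure ℝ)
    rw [← h'] at h2
    filter_upwards [h1, h2] with s h3 h4 hs
    have h5 : neg f s = ((Iic (0:ℝ)).indicator 1 s : ℝ) * f s := h3
    rw [h4, indicator_of_mem (mem_Iic.2 hs)] at h5
    simpa using h5.symm
  · intro h
    show neg f = 0
    apply Lp.ext
    have h1 := mulOp_coe (measurable_one.indicator measurableSet_Iic) zero_le_one (by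
      intro s
      by_cases h : s ∈ Iic (0:ℝ)
      · rw [indicator_of_mem h]; simp
      · rw [indicator_of_notMem h]; simp) f (k := (Iic (0:ℝ)).indicator 1) (C := 1)
    filter_upwards [h1, h, Lp.coeFn_zero ℂ 2 (volume : Measure ℝ)] with s h3 h4 h5
    have h6 : neg f s = ((Iic (0:ℝ)).indicator 1 s : ℝ) * f s := h3
    rw [h6, h5]
    by_cases hs : s ≤ 0
    · rw [h4 hs]; simp
    · rw [indicator_of_notMem (by simpa using hs)]; simp

lemma K_closed : IsClosed (K : Set L) := neg.isClosed_ker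

instance : CompleteSpace K := K_closed.completeSpace_coe

lemma ae_shift {p : ℝ → Prop} (h : ∀ᵐ s : ℝ, p s) (t : ℝ) : ∀ᵐ s : ℝ, p (s - t) :=
  (sub_mp t).quasiMeasurePreserving.ae h

lemma W_mem {t : ℝ} (ht : 0 ≤ t) {f : L} (hf : f ∈ K) : W t ht f ∈ K := by
  rw [mem_K] at hf ⊢
  filter_upwards [W_coe ht f, ae_shift hf t] with s h1 h2 hs
  rw [h1, h2 (by linarith), mul_zero]

lemma W_add {t r : ℝ} (ht : 0 ≤ t) (hr : 0 ≤ r) {f : L} (hf : f ∈ K) :
    W (t + r) (add_nonneg ht hr) f = W t ht (W r hr f) := by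
  apply Lp.ext
  rw [mem_K] at hf
  filter_upwards [W_coe (add_nonneg ht hr) f, W_coe ht (W r hr f), ae_shift (W_coe hr f) t,
    ae_shift hf (t + r)] with s h1 h2 h3 h4
  rw [h1, h2, h3]
  have h5 : s - (t + r) = s - t - r := by ring
  rw [h5] at h4 ⊢
  by_cases hs : s - t - r ≤ 0
  · rw [h4 hs]; simp
  · push Not at hs
    rw [kf_of_lt (add_nonneg ht hr) (by linarith), kf_of_lt ht (by linarith), kf_of_lt hr (by linarith),
      ← mul_assoc]
    congr 1
    rw [← Complex.ofReal_mul]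
    congr 1
    have h6 : 1 + s ≠ 0 := by linarith
    have h7 : 1 + (s - t) ≠ 0 := by linarith
    have h8 : 1 + s - t ≠ 0 := by linarith
    field_simp
    ring

lemma W_zero (f : L) : W 0 (le_refl 0) f = f := by
  apply Lp.ext
  filter_upwards [W_coe (le_refl 0) f] with s h1
  rw [h1]
  unfold kf
  simp

end Run7.h81.Semi
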